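import Pool.Agent.helper9.HX.Spec

/-!
# Project hx, row DOMB
-/

set_option autoImplicit false

open scoped Classical

namespace Pool.Agent.helper9.HX

open Finset
open Pool.Agent.helper65.HC (V IsEig IsTop lam)
open Pool.Agent.helper9.HQ (Fam Dn E N Le hi c)

theorem DOMB_img {d : ℕ} (U : Fam d) (o : Fin d) :
    U.filter (fun x => x.card = 2 ∧ o ∈ x) =
      ((univ.erase o).filter (fun i => ({o, i} : Finset (Fin d)) ∈ U)).image
        (fun i => ({o, i} : Finset (Fin d))) := by
  ext x
  simp only [mem_filter, mem_image, mem_erase, mem_univ, and_true]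
  constructor
  · rintro ⟨hx, hc, ho⟩
    obtain ⟨a, b, hab, rfl⟩ := card_eq_two.1 hc
    simp only [mem_insert, mem_singleton] at ho
    rcases ho with rfl | rfl
    · exact ⟨b, ⟨fun h => hab h.symm, hx⟩, rfl⟩
    · refine ⟨a, ⟨hab, ?_⟩, pair_comm _ _⟩
      rw [pair_comm]; exact hx
  · rintro ⟨i, ⟨hi, hU⟩, rfl⟩
    exact ⟨hU, card_pair (fun h => hi h.symm), mem_insert_self _ _⟩

theorem DOMB_sum {d : ℕ} (U : Fam d) (o : Fin d) (g : Finset (Fin d) → ℝ) :
    ∑ x ∈ U.filter (fun x => x.card = 2 ∧ o ∈ x), g x =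
      ∑ i ∈ univ.erase o, if ({o, i} : Finset (Fin d)) ∈ U then g {o, i} else 0 := by
  rw [DOMB_img, sum_image, sum_filter]
  intro i hi j hj hij
  have hi' : i ≠ o := by
    have := (mem_filter.1 hi).1
    exact (mem_erase.1 this).1
  have h1 : i ∈ ({o, j} : Finset (Fin d)) := by
    have : i ∈ ({o, i} : Finset (Fin d)) := by simp
    have hij' : ({o, i} : Finset (Fin d)) = {o, j} := hij
    rwa [hij'] at this
  simp only [mem_insert, mem_singleton] at h1
  rcases h1 with h | h
  · exact absurd h hi'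
  · exact h

theorem DOMB_pd {d : ℕ} (U : Fam d) (f : Finset (Fin d) → ℝ) (o i : Fin d) (hio : i ≠ o) :
    pd i U f = (if ({o, i} : Finset (Fin d)) ∈ U then f {o, i} else 0) +
      ∑ x ∈ (U.filter (fun x => x.card = 2 ∧ o ∉ x)).filter (fun x => i ∈ x), f x := by
  unfold pd
  rw [← sum_filter_add_sum_filter_not (U.filter (fun x => x.card = 2 ∧ i ∈ x)) (fun x => o ∈ x)]
  congr 1
  · by_cases h : ({o, i} : Finset (Fin d)) ∈ U
    · rw [if_pos h]
      have : (U.filter (fun x => x.card = 2 ∧ i ∈ x)).filter (fun x => o ∈ x) = {{o, i}} := by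
        ext x
        simp only [mem_filter, mem_singleton]
        constructor
        · rintro ⟨⟨hx, hc, hi⟩, ho⟩
          symm
          apply eq_of_subset_of_card_le
          · intro y hy
            simp only [mem_insert, mem_singleton] at hy
            rcases hy with rfl | rfl
            · exact ho
            · exact hi
          · rw [hc, card_pair (fun h => hio h.symm)]
        · rintro rfl
          exact ⟨⟨h, card_pair (fun h => hio h.symm), by simp⟩, by simp⟩
      rw [this, sum_singleton]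
    · rw [if_neg h]
      apply sum_eq_zero
      intro x hx
      exfalso
      simp only [mem_filter] at hx
      obtain ⟨⟨hx, hc, hi⟩, ho⟩ := hx
      apply h
      have : ({o, i} : Finset (Fin d)) = x := by
        apply eq_of_subset_of_card_le
        · intro y hy
          simp only [mem_insert, mem_singleton] at hy
          rcases hy with rfl | rfl
          · exact ho
          · exact hi
        · rw [hc, card_pair (fun h => hio h.symm)]
      rw [this]; exact hx
  · apply sum_congr _ (fun _ _ => rfl)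
    ext x
    simp only [mem_filter]
    tauto

theorem DOMB_nu {d : ℕ} (U : Fam d) :
    nu U = (univ.filter (fun i : Fin d => ({i} : Finset (Fin d)) ∈ U)).card := by
  unfold nu
  have : U.filter (fun x => x.card = 1) =
      (univ.filter (fun i : Fin d => ({i} : Finset (Fin d)) ∈ U)).image
        (fun i => ({i} : Finset (Fin d))) := by
    ext x
    simp only [mem_filter, mem_image, mem_univ, true_and]
    constructor
    · rintro ⟨hx, hc⟩
      obtain ⟨a, rfl⟩ := card_eq_one.1 hc
      exact ⟨a, hx, rfl⟩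
    · rintro ⟨i, hi, rfl⟩
      exact ⟨hi, card_singleton _⟩
  rw [this, card_image_of_injective]
  intro i j hij
  exact singleton_injective hij

theorem DOMB (hDOM : DOM_stmt) : DOMB_stmt := by
  intro d U f o φ hU ho hf hφ hfφ
  set P0 : Fam d := U.filter (fun x => x.card = 2 ∧ o ∉ x) with hP0
  set P1 : Fam d := U.filter (fun x => x.card = 2 ∧ o ∈ x) with hP1
  obtain ⟨hD1, hD2⟩ := hDOM d P0 f (fun x hx => (mem_filter.1 hx).2.1) hf
  set a : Fin d → ℝ := fun i => if ({o, i} : Finset (Fin d)) ∈ U then f {o, i} else 0 with ha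
  set b : Fin d → ℝ := fun i => ∑ x ∈ P0.filter (fun x => i ∈ x), f x with hb
  have ha0 : ∀ i, 0 ≤ a i := by
    intro i
    simp only [ha]
    split_ifs
    · exact hf _
    · exact le_rfl
  have hb0 : ∀ i, 0 ≤ b i := fun i => sum_nonneg fun x _ => hf x
  have haφ : ∀ i, i ≠ o → a i ≤ φ := by
    intro i hi
    simp only [ha]
    split_ifs with h
    · exact hfφ _ h (card_pair (fun h => hi h.symm))
    · exact hφ
  have hw1 : ∑ x ∈ P1, f x = ∑ i ∈ univ.erase o, a i := DOMB_sum U o f
  have hv1 : ∑ x ∈ P1, f x ^ 2 = ∑ i ∈ univ.erase o, a i ^ 2 := by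
    rw [hP1, DOMB_sum U o (fun x => f x ^ 2)]
    apply sum_congr rfl
    intro i _
    simp only [ha]
    split_ifs <;> simp
  have hpdo : pd o U f = ∑ x ∈ P1, f x := rfl
  have hdis : U.filter (fun x => x.card = 2) = P1 ∪ P0 := by
    ext x
    simp only [hP0, hP1, mem_filter, mem_union]
    tauto
  have hdj : Disjoint P1 P0 := by
    rw [disjoint_left]
    intro x h1 h0
    exact (mem_filter.1 h0).2.2 (mem_filter.1 h1).2.2
  refine ⟨∑ x ∈ P1, f x, ∑ x ∈ P0, f x, ∑ x ∈ P1, f x ^ 2, ∑ x ∈ P0, f x ^ 2,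
    sum_nonneg fun x _ => hf x, sum_nonneg fun x _ => sq_nonneg _, rfl, rfl, ?_, ?_, ?_, ?_⟩
  · unfold u2
    rw [hdis, sum_union hdj]
  · have := sq_sum_le_card_mul_sum_sq (s := P1) (f := f)
    exact this
  · unfold ee dg
    rw [hdis, card_union_of_disjoint hdj]
    simp only [hP1]
    ring
  · set S : Finset (Fin d) := univ.filter (fun i : Fin d => ({i} : Finset (Fin d)) ∈ U) with hS
    have hoS : o ∈ S := mem_filter.2 ⟨mem_univ _, ho⟩
    have hnu : nu U = S.card := DOMB_nu U
    have hcard : ((S.erase o).card : ℝ) = (nu U : ℝ) - 1 := by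
      rw [card_erase_of_mem hoS, hnu, Nat.cast_sub (card_pos.2 ⟨o, hoS⟩)]
      simp
    rw [← add_sum_erase S _ hoS, hpdo]
    have h1 : ∑ i ∈ S.erase o, (1 + pd i U f) ^ 2 ≤
        ∑ i ∈ S.erase o, (1 + (2 * a i + a i ^ 2) + (2 * b i + b i ^ 2 + 2 * φ * b i)) := by
      apply sum_le_sum
      intro i hi
      have hio : i ≠ o := (mem_erase.1 hi).1
      have hpd : pd i U f = a i + b i := DOMB_pd U f o i hio
      rw [hpd]
      have := mul_le_mul_of_nonneg_right (haφ i hio) (hb0 i)
      nlinarith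
    have h2 : ∑ i ∈ S.erase o, (1 + (2 * a i + a i ^ 2) + (2 * b i + b i ^ 2 + 2 * φ * b i)) =
        ((S.erase o).card : ℝ) + ∑ i ∈ S.erase o, (2 * a i + a i ^ 2) +
          ∑ i ∈ S.erase o, (2 * b i + b i ^ 2 + 2 * φ * b i) := by
      rw [sum_add_distrib, sum_add_distrib]
      simp
    have h3 : ∑ i ∈ S.erase o, (2 * a i + a i ^ 2) ≤ ∑ i ∈ univ.erase o, (2 * a i + a i ^ 2) := by
      apply sum_le_sum_of_subset_of_nonneg (erase_subset_erase _ (subset_univ _))
      intro i _ _
      have := ha0 i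
      positivity
    have h4 : ∑ i ∈ S.erase o, (2 * b i + b i ^ 2 + 2 * φ * b i) ≤
        ∑ i, (2 * b i + b i ^ 2 + 2 * φ * b i) := by
      apply sum_le_sum_of_subset_of_nonneg (subset_univ _)
      intro i _ _
      have := hb0 i
      positivity
    have h5 : ∑ i ∈ univ.erase o, (2 * a i + a i ^ 2) = 2 * ∑ x ∈ P1, f x + ∑ x ∈ P1, f x ^ 2 := by
      rw [hw1, hv1, sum_add_distrib, mul_sum]
    have h6 : ∑ i, (2 * b i + b i ^ 2 + 2 * φ * b i) =
        2 * ∑ i, b i + ∑ i, b i ^ 2 + 2 * φ * ∑ i, b i := by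
      rw [sum_add_distrib, sum_add_distrib, mul_sum, mul_sum]
    have hD1' : ∑ i, b i = 2 * ∑ x ∈ P0, f x := hD1
    have hD2' : ∑ i, b i ^ 2 ≤ (∑ x ∈ P0, f x) ^ 2 + ∑ x ∈ P0, f x ^ 2 := hD2
    rw [hD1'] at h6
    rw [hcard] at h2
    nlinarith [h1, h2, h3, h4, h5, h6, hD2']

end Pool.Agent.helper9.HX
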